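import Mathlib
import Pool.Agent.Helper69.BQ.St.A

namespace Pool.Agent.Helper69.BQ.Cert
end Pool.Agent.Helper69.BQ.Cert

/-!
# Project BQ, piece M9: coordinates of products and of the integer of a mask
-/

set_option autoImplicit false

namespace Pool.Agent.Helper74.BQ

open Pool.Agent.Helper69.BQ
open Pool.Agent.Helper69.BQ.Cert

private lemma vv_one {q : ℕ} (hq : q.Prime) : vv q (1 : ℚ) = 0 := by
  have h := vv_of_not_dvd (p := q) hq (n := 1) (by
    intro h
    have h1 : (q : ℤ) ≤ 1 := Int.le_of_dvd one_pos h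
    have h2 := hq.two_le
    omega)
  simpa using h

private lemma vv_prime_ne {q p : ℕ} (hq : q.Prime) (hp : p.Prime) (hne : q ≠ p) :
    vv q (p : ℚ) = 0 := by
  have h := vv_of_not_dvd (p := q) hq (n := (p : ℤ)) (by
    intro h
    exact hne ((Nat.prime_dvd_prime_iff_eq hq hp).mp (by exact_mod_cast h)))
  simpa using h

private lemma getD_mem {ps : List ℕ} {i : ℕ} (hi : i < ps.length) : ps.getD i 0 ∈ ps := by
  rw [List.getD_eq_getElem _ _ hi]
  exact List.getElem_mem hi

/-- M8. Coordinates of a product. -/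
lemma co_mul {ps : List ℕ} (hps : ∀ p ∈ ps, p.Prime) {a b : ℚ} (ha : a ≠ 0) (hb : b ≠ 0) (i : ℕ)
    (hi : i < ps.length + 2) : co ps (a * b) i = co ps a i + co ps b i := by
  match i, hi with
  | 0, _ =>
    simp only [co]
    rcases lt_or_gt_of_ne ha with h1 | h1 <;> rcases lt_or_gt_of_ne hb with h2 | h2
    · rw [if_neg (not_lt.mpr (mul_pos_of_neg_of_neg h1 h2).le), if_pos h1, if_pos h2]
      decide
    · rw [if_pos (mul_neg_of_neg_of_pos h1 h2), if_pos h1, if_neg (not_lt.mpr h2.le), add_zero]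
    · rw [if_pos (mul_neg_of_pos_of_neg h1 h2), if_neg (not_lt.mpr h1.le), if_pos h2, zero_add]
    · rw [if_neg (not_lt.mpr (mul_pos h1 h2).le), if_neg (not_lt.mpr h1.le),
        if_neg (not_lt.mpr h2.le), add_zero]
  | 1, _ => exact vv_mul Nat.prime_two ha hb
  | i + 2, hi => exact vv_mul (hps _ (getD_mem (by omega))) ha hb

private lemma prodM_pos {ps : List ℕ} (hps : ∀ p ∈ ps, p.Prime) (m : ℕ) : 0 < prodM ps m := by
  induction ps generalizing m with
  | nil => simp [prodM]
  | cons p ps ih =>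
    simp only [prodM]
    refine Nat.mul_pos ?_ (ih (fun q hq => hps q (List.mem_cons_of_mem _ hq)) _)
    split_ifs
    · exact (hps p List.mem_cons_self).pos
    · exact one_pos

private lemma prodM_cons (p : ℕ) (ps : List ℕ) (m : ℕ) : ((prodM (p :: ps) m : ℕ) : ℚ) =
    (if m % 2 = 1 then (p : ℚ) else 1) * ((prodM ps (m / 2) : ℕ) : ℚ) := by
  simp only [prodM]
  push_cast
  split_ifs <;> simp

private lemma head_ne {p m : ℕ} (hp : p.Prime) : (if m % 2 = 1 then (p : ℚ) else 1) ≠ 0 := by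
  split_ifs
  · exact_mod_cast hp.ne_zero
  · exact one_ne_zero

private lemma vv_prodM_of_notMem {ps : List ℕ} (hps : ∀ p ∈ ps, p.Prime) {q : ℕ} (hq : q.Prime)
    (hn : q ∉ ps) (m : ℕ) : vv q ((prodM ps m : ℕ) : ℚ) = 0 := by
  induction ps generalizing m with
  | nil => simpa [prodM] using vv_one hq
  | cons p ps ih =>
    have hps' : ∀ q ∈ ps, q.Prime := fun q hq => hps q (List.mem_cons_of_mem _ hq)
    rw [prodM_cons, vv_mul hq (head_ne (hps p List.mem_cons_self))
      (by exact_mod_cast (prodM_pos hps' _).ne'), ih hps'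
      (fun h => hn (List.mem_cons_of_mem _ h)), add_zero]
    split_ifs
    · exact vv_prime_ne hq (hps p List.mem_cons_self) (fun h => hn (h ▸ List.mem_cons_self))
    · exact vv_one hq

private lemma vv_prodM {ps : List ℕ} (hps : ∀ p ∈ ps, p.Prime) (hnd : ps.Nodup) (m i : ℕ)
    (hi : i < ps.length) : vv (ps.getD i 0) ((prodM ps m : ℕ) : ℚ) = bitz m i := by
  induction ps generalizing m i with
  | nil => simp at hi
  | cons p ps ih =>
    have hps' : ∀ q ∈ ps, q.Prime := fun q hq => hps q (List.mem_cons_of_mem _ hq)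
    have hp : p.Prime := hps p List.mem_cons_self
    rw [List.nodup_cons] at hnd
    have hne : ((prodM ps (m / 2) : ℕ) : ℚ) ≠ 0 := by exact_mod_cast (prodM_pos hps' _).ne'
    rcases i with _ | i
    · rw [List.getD_cons_zero, prodM_cons, vv_mul hp (head_ne hp) hne,
        vv_prodM_of_notMem hps' hp hnd.1, add_zero]
      unfold bitz
      rw [Nat.testBit_zero]
      by_cases h : m % 2 = 1
      · rw [if_pos h, vv_self hp, if_pos (by simpa using h)]
      · rw [if_neg h, vv_one hp, if_neg (by simpa using h)]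
    · have hi' : i < ps.length := by
        rw [List.length_cons] at hi
        omega
      have hmem : ps.getD i 0 ∈ ps := getD_mem hi'
      rw [List.getD_cons_succ, prodM_cons, vv_mul (hps' _ hmem) (head_ne hp) hne,
        ih hps' hnd.2 _ _ hi']
      have h0 : vv (ps.getD i 0) (if m % 2 = 1 then (p : ℚ) else 1) = 0 := by
        split_ifs
        · exact vv_prime_ne (hps' _ hmem) hp (fun h => hnd.1 (h ▸ hmem))
        · exact vv_one (hps' _ hmem)
      rw [h0, zero_add]
      unfold bitz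
      rw [Nat.testBit_succ]

private lemma valM_cast (ps : List ℕ) (m : ℕ) : ((valM ps m : ℤ) : ℚ) =
    ((if m % 2 = 1 then (-1 : ℚ) else 1) * (if m / 2 % 2 = 1 then ((2 : ℕ) : ℚ) else 1)) *
      ((prodM ps (m / 4) : ℕ) : ℚ) := by
  unfold valM
  push_cast
  rfl

private lemma s_ne (m : ℕ) : (if m % 2 = 1 then (-1 : ℚ) else 1) ≠ 0 := by
  split_ifs <;> norm_num

private lemma t_pos (m : ℕ) : 0 < (if m / 2 % 2 = 1 then ((2 : ℕ) : ℚ) else 1) := by
  split_ifs <;> norm_num

private lemma vv_s {q : ℕ} (hq : q.Prime) (m : ℕ) :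
    vv q (if m % 2 = 1 then (-1 : ℚ) else 1) = 0 := by
  split_ifs
  · rw [vv_neg, vv_one hq]
  · exact vv_one hq

private lemma vv_t {q : ℕ} (hq : q.Prime) (hq2 : q ≠ 2) (m : ℕ) :
    vv q (if m / 2 % 2 = 1 then ((2 : ℕ) : ℚ) else 1) = 0 := by
  split_ifs
  · exact vv_prime_ne hq Nat.prime_two hq2
  · exact vv_one hq

private lemma vv_valM {ps : List ℕ} (hps : ∀ p ∈ ps, p.Prime) {q : ℕ} (hq : q.Prime) (m : ℕ) :
    vv q ((valM ps m : ℤ) : ℚ) = vv q (if m / 2 % 2 = 1 then ((2 : ℕ) : ℚ) else 1) +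
      vv q ((prodM ps (m / 4) : ℕ) : ℚ) := by
  rw [valM_cast, vv_mul hq (mul_ne_zero (s_ne m) (t_pos m).ne')
    (by exact_mod_cast (prodM_pos hps _).ne'), vv_mul hq (s_ne m) (t_pos m).ne', vv_s hq,
    zero_add]

/-- M9. The integer of a mask has the coordinates given by the mask. -/
lemma co_valM {ps : List ℕ} (hps : ∀ p ∈ ps, p.Prime ∧ p ≠ 2) (hnd : ps.Nodup) (m i : ℕ)
    (hi : i < ps.length + 2) : co ps (valM ps m) i = bitz m i := by
  have hps' : ∀ p ∈ ps, p.Prime := fun p hp => (hps p hp).1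
  match i, hi with
  | 0, _ =>
    simp only [co]
    unfold bitz
    rw [Nat.testBit_zero, valM_cast]
    have h1 : (0 : ℚ) < ((prodM ps (m / 4) : ℕ) : ℚ) := by exact_mod_cast prodM_pos hps' _
    by_cases h : m % 2 = 1
    · rw [if_pos h, if_pos, if_pos (by simpa using h)]
      exact mul_neg_of_neg_of_pos (mul_neg_of_neg_of_pos (by norm_num) (t_pos m)) h1
    · rw [if_neg h, if_neg, if_neg (by simpa using h)]
      exact not_lt.mpr (mul_pos (mul_pos one_pos (t_pos m)) h1).le
  | 1, _ =>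
    simp only [co]
    rw [vv_valM hps' Nat.prime_two, vv_prodM_of_notMem hps' Nat.prime_two
      (fun h => (hps 2 h).2 rfl), add_zero]
    unfold bitz
    rw [Nat.testBit_succ, Nat.testBit_zero]
    by_cases h : m / 2 % 2 = 1
    · rw [if_pos h, vv_self Nat.prime_two, if_pos (by simpa using h)]
    · rw [if_neg h, vv_one Nat.prime_two, if_neg (by simpa using h)]
  | i + 2, hi =>
    simp only [co]
    have hi' : i < ps.length := by omega
    have hmem := getD_mem hi'
    rw [vv_valM hps' (hps' _ hmem), vv_t (hps' _ hmem) (hps _ hmem).2, zero_add,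
      vv_prodM hps' hnd _ _ hi']
    unfold bitz
    rw [Nat.testBit_succ, Nat.testBit_succ, Nat.div_div_eq_div_mul]

/-- M10. -/
lemma supp_valM {ps : List ℕ} (hps : ∀ p ∈ ps, p.Prime ∧ p ≠ 2) (m : ℕ) :
    SuppOn ps (valM ps m) := by
  have hps' : ∀ p ∈ ps, p.Prime := fun p hp => (hps p hp).1
  refine ⟨?_, fun p hp hp2 hn => ?_⟩
  · rw [valM_cast]
    exact mul_ne_zero (mul_ne_zero (s_ne m) (t_pos m).ne')
      (by exact_mod_cast (prodM_pos hps' _).ne')
  · rw [vv_valM hps' hp, vv_t hp hp2, vv_prodM_of_notMem hps' hp hn, add_zero]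

end Pool.Agent.Helper74.BQ
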